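import Pool.Agent.W648.UN.Stm2

/-!
UN-ORB: periodic orbits (subtask 3019).
-/

set_option autoImplicit false

open MeasureTheory Set Filter Topology
open scoped ContDiff

noncomputable section

namespace Pool.Agent.W462.UN

open Pool.Agent.W648.UN

theorem lipM {M : ℝ → ℝ} (hM : Differentiable ℝ M) (hb : ∀ v, |deriv M v| ≤ 1 / 200) (a b : ℝ) :
    |M a - M b| ≤ 1 / 200 * |a - b| := by
  have h := Convex.norm_image_sub_le_of_norm_deriv_le (f := M) (s := univ) (C := 1 / 200)
    (fun x _ => hM x) (fun x _ => by rw [Real.norm_eq_abs]; exact hb x) convex_univ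
    (mem_univ b) (mem_univ a)
  rwa [Real.norm_eq_abs, Real.norm_eq_abs] at h

/-- the energy estimate -/
theorem qest {M : ℝ → ℝ} (hL : ∀ a b, |M a - M b| ≤ 1 / 200 * |a - b|) (a b : ℝ) :
    |2 * ((a - b) * (M a - M b))| ≤ 1 / 100 * (a - b) ^ 2 := by
  rw [abs_mul, abs_mul, abs_of_pos (by norm_num : (0:ℝ) < 2)]
  have h1 := mul_le_mul_of_nonneg_left (hL a b) (abs_nonneg (a - b))
  have h2 : |a - b| * |a - b| = (a - b) ^ 2 := by rw [← sq, sq_abs]
  nlinarith

/-- uniqueness for the ODE -/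
theorem uniq {M : ℝ → ℝ} (hL : ∀ a b, |M a - M b| ≤ 1 / 200 * |a - b|) {u1 v1 u2 v2 : ℝ → ℝ}
    (hu1 : ∀ s, HasDerivAt u1 (v1 s) s) (hv1 : ∀ s, HasDerivAt v1 (-u1 s - M (v1 s)) s)
    (hu2 : ∀ s, HasDerivAt u2 (v2 s) s) (hv2 : ∀ s, HasDerivAt v2 (-u2 s - M (v2 s)) s)
    {s0 : ℝ} (e1 : u1 s0 = u2 s0) (e2 : v1 s0 = v2 s0) (s : ℝ) : u1 s = u2 s ∧ v1 s = v2 s := by
  set e : ℝ → ℝ := fun s => (u1 s - u2 s) ^ 2 + (v1 s - v2 s) ^ 2 with he
  have he0 : ∀ s, 0 ≤ e s := fun s => by positivity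
  have hed : ∀ s, HasDerivAt e (-(2 * ((v1 s - v2 s) * (M (v1 s) - M (v2 s))))) s := by
    intro s
    have h1 := (((hu1 s).sub (hu2 s)).pow 2).add (((hv1 s).sub (hv2 s)).pow 2)
    refine h1.congr_deriv ?_
    simp only [Pi.sub_apply]
    push_cast
    ring
  have hb : ∀ s, |(-(2 * ((v1 s - v2 s) * (M (v1 s) - M (v2 s)))))| ≤ 1 / 100 * e s := by
    intro s
    rw [abs_neg]
    refine (qest hL _ _).trans ?_
    simp only [he]
    nlinarith [sq_nonneg (u1 s - u2 s)]
  have h0 : e s0 = 0 := by simp only [he, e1, e2]; ring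
  have hexp : ∀ c s : ℝ, HasDerivAt (fun s => Real.exp (c * s)) (Real.exp (c * s) * c) s := by
    intro c s
    have := ((hasDerivAt_id s).const_mul c).exp
    simpa using this
  have key : e s ≤ 0 := by
    rcases le_total s s0 with h | h
    · have hm : Monotone (fun s => e s * Real.exp (1 / 100 * s)) := by
        refine monotone_of_deriv_nonneg
          (fun s => ((hed s).mul (hexp (1 / 100) s)).differentiableAt) (fun s => ?_)
        have h3 := ((hed s).mul (hexp (1 / 100) s)).deriv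
        have h4 : deriv (fun s => e s * Real.exp (1 / 100 * s)) s = _ := h3
        rw [h4]
        have h5 := (abs_le.1 (hb s)).1
        have h6 := Real.exp_pos (1 / 100 * s)
        nlinarith
      have h1 := hm h
      simp only [h0, zero_mul] at h1
      have h6 := Real.exp_pos (1 / 100 * s)
      by_contra hcon
      push Not at hcon
      have := mul_pos hcon h6
      linarith
    · have hm : Antitone (fun s => e s * Real.exp (-(1 / 100) * s)) := by
        refine antitone_of_deriv_nonpos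
          (fun s => ((hed s).mul (hexp (-(1 / 100)) s)).differentiableAt) (fun s => ?_)
        have h3 := ((hed s).mul (hexp (-(1 / 100)) s)).deriv
        have h4 : deriv (fun s => e s * Real.exp (-(1 / 100) * s)) s = _ := h3
        rw [h4]
        have h5 := (abs_le.1 (hb s)).2
        have h6 := Real.exp_pos (-(1 / 100) * s)
        nlinarith
      have h1 := hm h
      simp only [h0, zero_mul] at h1
      have h6 := Real.exp_pos (-(1 / 100) * s)
      by_contra hcon
      push Not at hcon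
      have := mul_pos hcon h6
      linarith
  simp only [he] at key
  have g1 : (u1 s - u2 s) ^ 2 = 0 := by nlinarith [sq_nonneg (u1 s - u2 s), sq_nonneg (v1 s - v2 s)]
  have g2 : (v1 s - v2 s) ^ 2 = 0 := by nlinarith [sq_nonneg (u1 s - u2 s), sq_nonneg (v1 s - v2 s)]
  constructor
  · have := pow_eq_zero_iff (two_ne_zero) |>.1 g1
    linarith
  · have := pow_eq_zero_iff (two_ne_zero) |>.1 g2
    linarith

/-- the solution along a branch -/
theorem arc {M f N H u v : ℝ → ℝ} (hL : ∀ a b, |M a - M b| ≤ 1 / 200 * |a - b|)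
    (hMc : Continuous M) (hMd : ∀ v, 0 < v → HasDerivAt M (f v) v) {σ R : ℝ} (hσ : σ * σ = 1)
    (hR : 0 < R) (Nc : ContinuousOn N (Icc 0 1)) (N1 : N 1 = 0)
    (Np : ∀ x ∈ Ico (0 : ℝ) 1, 0 < N x)
    (Nd : ∀ x ∈ Ioo (0 : ℝ) 1, HasDerivAt N ((-x - H x * N x) / N x) x)
    (hH : ∀ x ∈ Ioo (0 : ℝ) 1, H x = -σ * f (R * x))
    (Ni : IntervalIntegrable (fun x => (N x)⁻¹) volume 0 1)
    (hu : ∀ s, HasDerivAt u (v s) s) (hv : ∀ s, HasDerivAt v (-u s - M (v s)) s)
    (u0 : u 0 = -M R) (v0 : v 0 = R) :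
    ContinuousOn (fun x => ∫ y in x..1, (N y)⁻¹) (Icc (0 : ℝ) 1) ∧
    ∀ x ∈ Icc (0 : ℝ) 1, v (σ * ∫ y in x..1, (N y)⁻¹) = R * x ∧
      u (σ * ∫ y in x..1, (N y)⁻¹) = σ * R * N x - M (R * x) := by
  set t : ℝ → ℝ := fun x => ∫ y in x..1, (N y)⁻¹ with ht
  have hfc : ContinuousOn (fun y => (N y)⁻¹) (Ioo (0 : ℝ) 1) :=
    (Nc.mono Ioo_subset_Icc_self).inv₀ (fun x hx => (Np x ⟨hx.1.le, hx.2⟩).ne')
  have htc : ContinuousOn t (Icc (0 : ℝ) 1) := by
    have h1 := intervalIntegral.continuousOn_primitive_interval' Ni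
      (right_mem_uIcc : (1 : ℝ) ∈ uIcc (0 : ℝ) 1)
    rw [uIcc_of_le zero_le_one] at h1
    refine h1.neg.congr (fun x _ => ?_)
    simp only [ht]
    exact intervalIntegral.integral_symm 1 x
  have htd : ∀ x ∈ Ioo (0 : ℝ) 1, HasDerivAt t (-(N x)⁻¹) x := by
    intro x hx
    refine intervalIntegral.integral_hasDerivAt_left ?_ ?_ ?_
    · refine Ni.mono_set ?_
      rw [uIcc_of_le hx.2.le, uIcc_of_le zero_le_one]
      exact Icc_subset_Icc_left hx.1.le
    · exact hfc.stronglyMeasurableAtFilter isOpen_Ioo x hx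
    · exact hfc.continuousAt (isOpen_Ioo.mem_nhds hx)
  refine ⟨htc, ?_⟩
  have huc : Continuous u := continuous_iff_continuousAt.2 fun s => (hu s).continuousAt
  have hvc : Continuous v := continuous_iff_continuousAt.2 fun s => (hv s).continuousAt
  -- the energy
  set p : ℝ → ℝ := fun x => u (σ * t x) - (σ * R * N x - M (R * x)) with hp
  set q : ℝ → ℝ := fun x => v (σ * t x) - R * x with hq
  set G : ℝ → ℝ := fun x => (p x ^ 2 + q x ^ 2) * Real.exp (-(1 / 100) * t x) with hG
  have hpc : ContinuousOn p (Icc (0 : ℝ) 1) := by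
    have h1 : ContinuousOn (fun x => u (σ * t x)) (Icc (0 : ℝ) 1) :=
      huc.comp_continuousOn (continuousOn_const.mul htc)
    have h2 : ContinuousOn (fun x => σ * R * N x) (Icc (0 : ℝ) 1) := continuousOn_const.mul Nc
    have h3 : Continuous (fun x => M (R * x)) := hMc.comp (continuous_const.mul continuous_id)
    exact h1.sub (h2.sub h3.continuousOn)
  have hqc : ContinuousOn q (Icc (0 : ℝ) 1) := by
    have h1 : ContinuousOn (fun x => v (σ * t x)) (Icc (0 : ℝ) 1) :=
      hvc.comp_continuousOn (continuousOn_const.mul htc)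
    exact h1.sub (continuous_const.mul continuous_id).continuousOn
  have hGc : ContinuousOn G (Icc (0 : ℝ) 1) :=
    ((hpc.pow 2).add (hqc.pow 2)).mul (Real.continuous_exp.comp_continuousOn
      (continuousOn_const.mul htc))
  have hGd : ∀ x ∈ Ioo (0 : ℝ) 1, ∃ g, HasDerivAt G g x ∧ 0 ≤ g := by
    intro x hx
    have hNx : 0 < N x := Np x ⟨hx.1.le, hx.2⟩
    have hT := htd x hx
    have hU : HasDerivAt (fun x => u (σ * t x)) (v (σ * t x) * (σ * -(N x)⁻¹)) x :=
      HasDerivAt.comp x (hu (σ * t x)) (hT.const_mul σ)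
    have hV : HasDerivAt (fun x => v (σ * t x))
        ((-u (σ * t x) - M (v (σ * t x))) * (σ * -(N x)⁻¹)) x :=
      HasDerivAt.comp x (hv (σ * t x)) (hT.const_mul σ)
    have hRx : HasDerivAt (fun x => R * x) R x := by
      simpa using (hasDerivAt_id x).const_mul R
    have hMx : HasDerivAt (fun x => M (R * x)) (f (R * x) * R) x :=
      HasDerivAt.comp x (hMd (R * x) (mul_pos hR hx.1)) hRx
    have hNx' := (Nd x hx).const_mul (σ * R)
    have hpd : HasDerivAt p (-σ * q x / N x) x := by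
      have h1 := hU.sub (hNx'.sub hMx)
      refine h1.congr_deriv ?_
      rw [hH x hx]
      simp only [hq]
      field_simp
      linear_combination (-(R * f (R * x) * N x)) * hσ
    have hqd : HasDerivAt q (σ * (p x + (M (v (σ * t x)) - M (R * x))) / N x) x := by
      have h1 := hV.sub hRx
      refine h1.congr_deriv ?_
      simp only [hp]
      field_simp
      linear_combination (R * N x) * hσ
    have hE : HasDerivAt (fun x => Real.exp (-(1 / 100) * t x))
        (Real.exp (-(1 / 100) * t x) * (-(1 / 100) * -(N x)⁻¹)) x := (hT.const_mul _).exp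
    have hGx := ((hpd.pow 2).add (hqd.pow 2)).mul hE
    refine ⟨_, hGx, ?_⟩
    have hq2 := (abs_le.1 (qest hL (v (σ * t x)) (R * x)))
    have hqe : v (σ * t x) - R * x = q x := rfl
    rw [hqe] at hq2
    have hσ' : |σ| = 1 := by
      have : |σ| * |σ| = 1 := by rw [← abs_mul, hσ, abs_one]
      nlinarith [abs_nonneg σ]
    have hb : -(1 / 100 * q x ^ 2) ≤ σ * (2 * (q x * (M (v (σ * t x)) - M (R * x)))) := by
      have h1 : |σ * (2 * (q x * (M (v (σ * t x)) - M (R * x))))| ≤ 1 / 100 * q x ^ 2 := by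
        rw [abs_mul, hσ', one_mul]
        exact abs_le.2 hq2
      exact (abs_le.1 h1).1
    have hexp := Real.exp_pos (-(1 / 100) * t x)
    set EE := Real.exp (-(1 / 100) * t x) with hEE
    set DM := M (v (σ * t x)) - M (R * x) with hDM
    have hfin : (((2 : ℕ) : ℝ) * p x ^ (2 - 1) * (-σ * q x / N x) +
        ((2 : ℕ) : ℝ) * q x ^ (2 - 1) * (σ * (p x + DM) / N x)) * EE +
        (p x ^ 2 + q x ^ 2) * (EE * (-(1 / 100) * -(N x)⁻¹)) =
        (EE / N x) * (σ * (2 * (q x * DM)) + 1 / 100 * (p x ^ 2 + q x ^ 2)) := by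
      field_simp
      push_cast
      ring
    have hgoal : 0 ≤ (EE / N x) * (σ * (2 * (q x * DM)) + 1 / 100 * (p x ^ 2 + q x ^ 2)) := by
      apply mul_nonneg (by positivity)
      nlinarith [sq_nonneg (p x)]
    rw [← hfin] at hgoal
    simpa using hgoal
  have hmono : MonotoneOn G (Icc (0 : ℝ) 1) := by
    refine monotoneOn_of_deriv_nonneg (convex_Icc 0 1) hGc ?_ ?_
    · intro x hx
      rw [interior_Icc] at hx
      obtain ⟨g, h1, _⟩ := hGd x hx
      exact h1.differentiableAt.differentiableWithinAt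
    · intro x hx
      rw [interior_Icc] at hx
      obtain ⟨g, h1, h2⟩ := hGd x hx
      rw [h1.deriv]
      exact h2
  have ht1 : t 1 = 0 := by simp only [ht]; exact intervalIntegral.integral_same
  have hG1 : G 1 = 0 := by
    simp only [hG, hp, hq, ht1, N1, mul_zero, mul_one, u0, v0]
    ring
  intro x hx
  have h1 := hmono hx (right_mem_Icc.2 zero_le_one) hx.2
  rw [hG1] at h1
  have hexp := Real.exp_pos (-(1 / 100) * t x)
  have h2 : p x ^ 2 + q x ^ 2 ≤ 0 := by
    by_contra hcon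
    push Not at hcon
    have := mul_pos hcon hexp
    simp only [hG] at h1
    linarith
  have g1 : p x ^ 2 = 0 := by nlinarith [sq_nonneg (p x), sq_nonneg (q x)]
  have g2 : q x ^ 2 = 0 := by nlinarith [sq_nonneg (p x), sq_nonneg (q x)]
  have g1' : p x = 0 := pow_eq_zero_iff (two_ne_zero) |>.1 g1
  have g2' : q x = 0 := pow_eq_zero_iff (two_ne_zero) |>.1 g2
  simp only [hp] at g1'
  simp only [hq] at g2'
  constructor
  · linarith
  · linarith

/-- consequence for the time derivative of `v` on the branch -/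
theorem arc2 {M f N H u v : ℝ → ℝ} (hL : ∀ a b, |M a - M b| ≤ 1 / 200 * |a - b|)
    (hMc : Continuous M) (hMd : ∀ v, 0 < v → HasDerivAt M (f v) v) {σ R : ℝ} (hσ : σ * σ = 1)
    (hR : 0 < R) (Nc : ContinuousOn N (Icc 0 1)) (N1 : N 1 = 0)
    (Np : ∀ x ∈ Ico (0 : ℝ) 1, 0 < N x)
    (Nd : ∀ x ∈ Ioo (0 : ℝ) 1, HasDerivAt N ((-x - H x * N x) / N x) x)
    (hH : ∀ x ∈ Ioo (0 : ℝ) 1, H x = -σ * f (R * x))
    (Ni : IntervalIntegrable (fun x => (N x)⁻¹) volume 0 1)
    (hu : ∀ s, HasDerivAt u (v s) s) (hv : ∀ s, HasDerivAt v (-u s - M (v s)) s)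
    (u0 : u 0 = -M R) (v0 : v 0 = R) :
    v (σ * ∫ y in (0 : ℝ)..1, (N y)⁻¹) = 0 ∧
    ∀ s, 0 < s → s ≤ (∫ y in (0 : ℝ)..1, (N y)⁻¹) →
      0 < σ * (u (σ * s) + M (v (σ * s))) := by
  obtain ⟨hc, hx⟩ := arc hL hMc hMd hσ hR Nc N1 Np Nd hH Ni hu hv u0 v0
  constructor
  · have := (hx 0 (left_mem_Icc.2 zero_le_one)).1
    rw [this, mul_zero]
  · intro s hs hs1
    have h1 : s ∈ (fun x => ∫ y in x..1, (N y)⁻¹) '' Icc (0 : ℝ) 1 := by
      have h2 := intermediate_value_Icc' (zero_le_one (α := ℝ)) hc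
      apply h2
      constructor
      · simp only [intervalIntegral.integral_same]
        exact hs.le
      · exact hs1
    obtain ⟨x, hx1, hxs⟩ := h1
    simp only at hxs
    obtain ⟨h3, h4⟩ := hx x hx1
    rw [hxs] at h3 h4
    have hx1' : x < 1 := by
      rcases hx1.2.lt_or_eq with h | h
      · exact h
      · exfalso
        rw [h, intervalIntegral.integral_same] at hxs
        linarith
    rw [h3, h4]
    have hN := Np x ⟨hx1.1, hx1'⟩
    have e : σ * (σ * R * N x - M (R * x) + M (R * x)) = (σ * σ) * (R * N x) := by ring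
    rw [e, hσ, one_mul]
    exact mul_pos hR hN

/-- reflection -/
theorem refl {M u v : ℝ → ℝ} (hL : ∀ a b, |M a - M b| ≤ 1 / 200 * |a - b|)
    (hev : ∀ v, M (-v) = M v)
    (hu : ∀ s, HasDerivAt u (v s) s) (hv : ∀ s, HasDerivAt v (-u s - M (v s)) s) {a : ℝ}
    (ha : v a = 0) (s : ℝ) : u (2 * a - s) = u s ∧ v (2 * a - s) = -v s := by
  have hin : ∀ s : ℝ, HasDerivAt (fun s : ℝ => 2 * a - s) (-1) s := by
    intro s
    simpa using (hasDerivAt_id s).const_sub (2 * a)
  have h1 : ∀ s, HasDerivAt (fun s => u (2 * a - s)) (-v (2 * a - s)) s := by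
    intro s
    have := HasDerivAt.comp s (hu (2 * a - s)) (hin s)
    refine this.congr_deriv ?_
    ring
  have h2 : ∀ s, HasDerivAt (fun s => -v (2 * a - s))
      (-u (2 * a - s) - M (-v (2 * a - s))) s := by
    intro s
    have := (HasDerivAt.comp s (hv (2 * a - s)) (hin s)).neg
    refine this.congr_deriv ?_
    rw [hev]
    ring
  have e : 2 * a - a = a := by ring
  have := uniq hL (u1 := fun s => u (2 * a - s)) (v1 := fun s => -v (2 * a - s)) h1 h2 hu hv
    (s0 := a) (by simp only [e]) (by simp only [e, ha, neg_zero]) s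
  constructor
  · exact this.1
  · have h3 : -v (2 * a - s) = v s := this.2
    linarith

theorem th (hA : S_ARC) (hM : S_MM) (_hc : S_CONGR) : S_ORB := by
  intro h hh h0 hb t u v hu hv u0 v0
  obtain ⟨mc, mev, md, mb⟩ := hM h hh h0 hb
  have hL := lipM (mc.differentiable (by simp)) mb
  set M := MM h with hMd
  set R := Real.exp t with hRd
  have hR : 0 < R := Real.exp_pos t
  have hlog : ∀ x ∈ Ioo (0 : ℝ) 1, Real.log (R * x) = t + Real.log x := by
    intro x hx
    rw [Real.log_mul hR.ne' hx.1.ne', hRd, Real.log_exp]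
  have hcont : ContinuousOn (fun x => h (t + Real.log x)) (Ioo (0 : ℝ) 1) := by
    refine hh.continuous.comp_continuousOn ?_
    refine continuousOn_const.add (Real.continuousOn_log.mono ?_)
    intro x hx
    exact hx.1.ne'
  obtain ⟨Np, c1, c2, c3, c4, c5, c6⟩ := hA (fun x => h (t + Real.log x)) hcont
    (fun x _ => hb _)
  obtain ⟨Nm, d1, d2, d3, d4, d5, d6⟩ := hA (fun x => -h (t + Real.log x)) hcont.neg
    (fun x _ => by rw [abs_neg]; exact hb _)
  set τp : ℝ := ∫ x in (0 : ℝ)..1, (Np x)⁻¹ with hτp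
  set τm : ℝ := ∫ x in (0 : ℝ)..1, (Nm x)⁻¹ with hτm
  have pp : 0 < τp := intervalIntegral.intervalIntegral_pos_of_pos_on c5
    (fun x hx => inv_pos.2 (c3 x ⟨hx.1.le, hx.2⟩)) zero_lt_one
  have pm : 0 < τm := intervalIntegral.intervalIntegral_pos_of_pos_on d5
    (fun x hx => inv_pos.2 (d3 x ⟨hx.1.le, hx.2⟩)) zero_lt_one
  have hTT : TT (HH h t) = ((τp + τm : ℝ) : ℂ) := by
    unfold TT
    have e1 : HH h t = fun x => ((h (t + Real.log x) : ℝ) : ℂ) := rfl
    have e2 : (fun s => -HH h t s) = fun x => ((-h (t + Real.log x) : ℝ) : ℂ) := by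
      funext s
      unfold HH
      push_cast
      rfl
    rw [e2, d6, e1, c6]
    push_cast
    rfl
  have hre : (TT (HH h t)).re = τp + τm := by rw [hTT, Complex.ofReal_re]
  rw [hre]
  have hMc : Continuous M := mc.continuous
  -- falling branch, sigma = 1
  obtain ⟨m1, m2⟩ := arc2 (f := fun v => h (Real.log v)) (σ := 1) (R := R) hL hMc md (by norm_num) hR
    d1 d2 d3 d4 (fun x hx => by rw [hlog x hx]; ring) d5 hu hv u0 v0
  -- rising branch, sigma = -1
  obtain ⟨p1, p2⟩ := arc2 (f := fun v => h (Real.log v)) (σ := -1) (R := R) hL hMc md (by norm_num)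
    hR c1 c2 c3 c4 (fun x hx => by rw [hlog x hx]; ring) c5 hu hv u0 v0
  rw [one_mul] at m1
  have m3 : ∀ s, 0 < s → s ≤ τm → 0 < u s + M (v s) := by
    intro s h1 h2
    have := m2 s h1 h2
    rwa [one_mul, one_mul] at this
  have p3 : ∀ s, s < 0 → -τp ≤ s → u s + M (v s) < 0 := by
    intro s h1 h2
    have := p2 (-s) (by linarith) (by linarith)
    have e : (-1 : ℝ) * -s = s := by ring
    rw [e] at this
    linarith
  have rm := fun s => refl hL mev hu hv m1 s
  have rp := fun s => refl hL mev hu hv p1 s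
  have per : ∀ s, u (s + 2 * (τp + τm)) = u s ∧ v (s + 2 * (τp + τm)) = v s := by
    intro s
    have h1 := rp s
    have h2 := rm (2 * (-1 * τp) - s)
    have e : 2 * τm - (2 * (-1 * τp) - s) = s + 2 * (τp + τm) := by ring
    rw [e] at h2
    constructor
    · rw [h2.1, h1.1]
    · rw [h2.2, h1.2, neg_neg]
  have hw0 : -u 0 - M (v 0) = 0 := by rw [u0, v0]; ring
  have hc1 := rm 0
  rw [sub_zero] at hc1
  refine ⟨by linarith, fun s => (per s).1, fun s => (per s).2, 2 * τm, by linarith, by linarith,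
    ?_, ?_, ?_⟩
  · rw [hc1.2, v0]
    linarith
  · rw [hc1.1, hc1.2, mev]
    exact hw0
  · intro s hs hs1 hws
    rcases le_or_gt s τm with h1 | h1
    · exfalso
      have := m3 s hs h1
      linarith
    · rcases le_or_gt s (2 * τm + τp) with h2 | h2
      · have hr := rm s
        have hw : u (2 * τm - s) + M (v (2 * τm - s)) = 0 := by
          rw [hr.1, hr.2, mev]
          linarith
        rcases lt_trichotomy (2 * τm - s) 0 with h3 | h3 | h3
        · exfalso
          have := p3 _ h3 (by linarith)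
          linarith
        · linarith
        · exfalso
          have := m3 _ h3 (by linarith)
          linarith
      · exfalso
        have hq := per (s - 2 * (τp + τm))
        have e : s - 2 * (τp + τm) + 2 * (τp + τm) = s := by ring
        rw [e] at hq
        have := p3 (s - 2 * (τp + τm)) (by linarith) (by linarith)
        rw [← hq.1, ← hq.2] at this
        linarith

end Pool.Agent.W462.UN
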